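import Pool.Agent.Q96.ID.Stm

set_option autoImplicit false

open Cardinal Set Filter Topology Q96.ID

namespace Q203.ID.COMPL

/-- A big set has a vertical section of size `κ`. -/
lemma Big.exists {κ : Cardinal.{0}} (hκ : ℵ₀ ≤ κ) {I : Type} {D : Set (I × I)} (h : Big κ D) :
    ∃ ξ : I, #{η : I // (ξ, η) ∈ D} = κ := by
  unfold Big at h
  have h1 : #{ξ : I // #{η : I // (ξ, η) ∈ D} = κ} ≠ 0 := by
    rw [h]
    exact (lt_of_lt_of_le aleph0_pos hκ).ne'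
  rw [mk_ne_zero_iff] at h1
  obtain ⟨⟨ξ, hξ⟩⟩ := h1
  exact ⟨ξ, hξ⟩

lemma not_big_of_small {κ : Cardinal.{0}} (hκ : ℵ₀ ≤ κ) {I : Type} {N : Set (I × I)}
    (hN : #N < κ) : ¬ Big κ N := by
  intro h
  obtain ⟨ξ, hξ⟩ := Big.exists hκ h
  have h1 : #{η : I // (ξ, η) ∈ N} ≤ #N := by
    refine mk_le_of_injective (f := fun η => (⟨(ξ, η.1), η.2⟩ : N)) ?_
    intro a b hab
    have := congrArg (fun x : N => x.1.2) hab
    exact Subtype.ext this
  rw [hξ] at h1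
  exact absurd hN (not_lt.2 h1)

lemma not_big_of_thin {κ : Cardinal.{0}} (hκ : ℵ₀ ≤ κ) {I J : Type} {w : I × I → WithTop J}
    (hw : Thin κ w) : ¬ Big κ {x | w x ≠ ⊤} := by
  intro h
  obtain ⟨ξ, hξ⟩ := Big.exists hκ h
  exact absurd (hw ξ) (not_lt.2 (le_of_eq hξ.symm))

/-- small initial segments of `κ⁺` -/
lemma Iio_le {κ : Cardinal.{0}} (j : (Order.succ κ).ord.ToType) : #(Iio j) ≤ κ := by
  rw [← Order.lt_succ_iff]
  exact mk_Iio_toType_ord_lt j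

lemma Iic_le {κ : Cardinal.{0}} (hκ : ℵ₀ ≤ κ) (j : (Order.succ κ).ord.ToType) : #(Iic j) ≤ κ := by
  have h1 : (Iic j : Set (Order.succ κ).ord.ToType) = Iio j ∪ {j} := by
    ext x
    simp [le_iff_lt_or_eq]
  rw [h1]
  refine (mk_union_le _ _).trans ?_
  refine (add_le_add (Iio_le j) (le_of_eq (mk_singleton j))).trans ?_
  rw [add_one_eq hκ]

lemma bdd {κ : Cardinal.{0}} (hκ : ℵ₀ ≤ κ) (S : Set (Order.succ κ).ord.ToType) (hS : #S ≤ κ) :
    ∃ b, ∀ s ∈ S, s < b := by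
  by_contra hcon
  push Not at hcon
  have h1 : (univ : Set (Order.succ κ).ord.ToType) ⊆ ⋃ s : S, Iic s.1 := by
    intro b _
    obtain ⟨s, hs, hb⟩ := hcon b
    exact mem_iUnion.2 ⟨⟨s, hs⟩, hb⟩
  have h2 : #(Order.succ κ).ord.ToType ≤ κ := by
    calc #(Order.succ κ).ord.ToType = #(univ : Set (Order.succ κ).ord.ToType) := mk_univ.symm
      _ ≤ #(⋃ s : S, Iic s.1 : Set (Order.succ κ).ord.ToType) := mk_le_mk_of_subset h1
      _ ≤ #S * ⨆ s : S, #(Iic s.1) := mk_iUnion_le _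
      _ ≤ κ * κ := mul_le_mul' hS (ciSup_le' fun s => Iic_le hκ s.1)
      _ = κ := mul_eq_self hκ
  rw [mk_ord_toType] at h2
  exact absurd h2 (not_le.2 (Order.lt_succ κ))

/-- the sets in an ultrafilter on a set of size `κ`, enumerated by `κ⁺ = 2 ^ κ` -/
lemma enum {κ : Cardinal.{0}} (h2 : (2 : Cardinal.{0}) ^ κ = Order.succ κ) {X : Type}
    (hX : #X = κ) (q : Ultrafilter X) :
    ∃ D : (Order.succ κ).ord.ToType → Set X, (∀ γ, D γ ∈ q) ∧ ∀ S ∈ q, ∃ γ, D γ = S := by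
  have h1 : #{S : Set X // S ∈ q} ≤ #(Order.succ κ).ord.ToType := by
    rw [mk_ord_toType, ← h2, ← hX, ← mk_set]
    exact mk_subtype_le _
  obtain ⟨f⟩ := h1
  have : Nonempty {S : Set X // S ∈ q} := ⟨⟨univ, Filter.univ_mem⟩⟩
  refine ⟨fun γ => (Function.invFun f γ).1, fun γ => (Function.invFun f γ).2, fun S hS => ?_⟩
  refine ⟨f ⟨S, hS⟩, ?_⟩
  show (Function.invFun f (f ⟨S, hS⟩)).1 = S
  rw [Function.leftInverse_invFun f.injective]

lemma ev_norm {𝕜 J : Type} [RCLike 𝕜] (g : Linf 𝕜 J) (v : WithTop J) :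
    ‖ev (fun j => g j) v‖ ≤ ‖g‖ := by
  cases v with
  | top =>
    show ‖(0 : 𝕜)‖ ≤ ‖g‖
    rw [norm_zero]
    exact norm_nonneg g
  | coe j => exact lp.norm_apply_le_norm ENNReal.top_ne_zero g j

theorem t_COMPL (hCOMB : S_COMB) (hULTRA : S_ULTRA) (hEMAP : S_EMAP) (hPMAP : S_PMAP)
    (hSAME : S_SAME) (hAKG : S_AKG) : S_COMPL := by
  intro 𝕜 _ κ hκ hκ' hreg h2 I _ _ hI hIio Q _ _ _ π hπ
  have hXc : #(I × I) = κ := by
    rw [mk_prod, lift_id, hI, mul_eq_self hκ]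
  obtain ⟨q, hq⟩ := hULTRA.1 κ hκ I hI
  obtain ⟨D, hD1, hD2⟩ := enum h2 hXc q
  have hJ : #(Order.succ κ).ord.ToType = Order.succ κ := mk_ord_toType _
  have hBig : ∀ F : Finset (Order.succ κ).ord.ToType, Big κ (⋂ γ ∈ F, D γ) := by
    intro F
    refine hq _ ?_
    exact (Filter.biInter_finset_mem F).2 fun γ _ => hD1 γ
  obtain ⟨V, hV1, hV2, hV3, hV4⟩ := hCOMB κ hreg I (Order.succ κ).ord.ToType hI hIio
    (fun j => Iio_le j) D hBig
  have hqs : ∀ N : Set (I × I), #N < κ → Nᶜ ∈ q := by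
    intro N hN
    rw [Ultrafilter.compl_mem_iff_notMem]
    exact fun h => not_big_of_small hκ hN (hq N h)
  have hp : ∀ j : (Order.succ κ).ord.ToType, ∃ p : Ultrafilter (I × I),
      {x | V j x = (j : WithTop _)} ∈ p ∧ (∀ γ : Iio j, D γ.1 ∈ p) ∧
        ∀ N : Set (I × I), #N < κ → Nᶜ ∈ p := by
    intro j
    refine hULTRA.2 κ hκ (I × I) (Iio j) {x | V j x = (j : WithTop _)} (fun γ => D γ.1) ?_
    intro F
    have h1 := hV4 j (F.map (Function.Embedding.subtype _)) (by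
      intro γ hγ
      rw [Finset.mem_map] at hγ
      obtain ⟨a, -, rfl⟩ := hγ
      exact a.2)
    refine h1.symm.le.trans ?_
    refine mk_le_mk_of_subset ?_
    rintro x ⟨hx1, hx2⟩
    refine ⟨hx1, fun γ hγ => hx2 γ.1 ?_⟩
    rw [Finset.mem_map]
    exact ⟨γ, hγ, rfl⟩
  choose p hp1 hp2 hp3 using hp
  have hker : ∀ f ∈ A 𝕜 κ hκ (I × I), π f = 0 := fun f hf => (hπ.ker f).2 ⟨⟨f, hf⟩, rfl⟩
  obtain ⟨E, hE⟩ := hEMAP 𝕜 κ hκ hκ' I (Order.succ κ).ord.ToType (bdd hκ) V hV1 hV3 Q π hker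
  obtain ⟨r0, hr1, hr2⟩ := hPMAP 𝕜 κ hκ hκ' (I × I) (Order.succ κ).ord.ToType (Iic_le hκ) D q p
    hD2 (fun j γ hγ => hp2 j ⟨γ, hγ⟩) hqs (fun j => hp3 j)
  obtain ⟨hcl, -, hsupp⟩ := hAKG 𝕜 (Order.succ κ) hκ' (Order.succ κ).ord.ToType
    (Order.succ κ).ord.ToType
  have : CompleteSpace (A 𝕜 (Order.succ κ) hκ' (Order.succ κ).ord.ToType) :=
    hcl.completeSpace_coe
  obtain ⟨T, hT⟩ := (hSAME 𝕜 (Linf 𝕜 (I × I)) Q
    (A 𝕜 (Order.succ κ) hκ' (Order.succ κ).ord.ToType)).1 π r0 hπ.surj (by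
      intro x hx
      obtain ⟨a, ha⟩ := (hπ.ker x).1 hx
      rw [← ha]
      exact hr1 _ a.2)
  refine ⟨(Order.succ κ).ord.ToType, E, T, hJ, fun g => ?_⟩
  apply Subtype.ext
  ext j
  -- choose a bound of the support
  have hs := hsupp (lt_of_le_of_lt hκ (Order.lt_succ κ)) (isRegular_succ hκ) g.1 g.2
  have hs1 : #({γ | (g : Linf 𝕜 (Order.succ κ).ord.ToType) γ ≠ 0} ∪ {j} :
      Set (Order.succ κ).ord.ToType) ≤ κ := by
    refine (mk_union_le _ _).trans ?_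
    refine (add_le_add (Order.lt_succ_iff.1 hs) (le_of_eq (mk_singleton j))).trans ?_
    rw [add_one_eq hκ]
  obtain ⟨b, hb⟩ := bdd hκ _ hs1
  have hjb : j < b := hb j (Or.inr rfl)
  have hg0 : ∀ i, b < i → (g : Linf 𝕜 (Order.succ κ).ord.ToType) i = 0 := by
    intro i hi
    by_contra hne
    exact lt_asymm hi (hb i (Or.inl hne))
  let f : Linf 𝕜 (I × I) := ⟨fun x => ev (fun j => (g : Linf 𝕜 (Order.succ κ).ord.ToType) j) (V b x),
    memℓp_infty ⟨‖(g : Linf 𝕜 (Order.succ κ).ord.ToType)‖, by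
      rintro _ ⟨x, rfl⟩
      exact ev_norm _ _⟩⟩
  have hf : ∀ x, f x = ev (fun j => (g : Linf 𝕜 (Order.succ κ).ord.ToType) j) (V b x) :=
    fun x => rfl
  have h1 := hE g b f hg0 hf
  rw [h1, hT]
  have hlimq : Tendsto (fun x => f x) (q : Filter (I × I)) (𝓝 0) := by
    refine Tendsto.congr' ?_ tendsto_const_nhds
    have h3 : {x | V b x ≠ ⊤}ᶜ ∈ q := by
      rw [Ultrafilter.compl_mem_iff_notMem]
      exact fun h => not_big_of_thin hκ (hV2 b) (hq _ h)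
    filter_upwards [h3] with x hx
    have h4 : V b x = ⊤ := by
      by_contra hne
      exact hx hne
    rw [hf, h4]
    rfl
  have hlimp : Tendsto (fun x => f x) (p j : Filter (I × I))
      (𝓝 ((g : Linf 𝕜 (Order.succ κ).ord.ToType) j)) := by
    refine Tendsto.congr' ?_ tendsto_const_nhds
    have h3 := hp3 j _ (hV3 j b hjb)
    filter_upwards [h3, hp1 j] with x hx hx2
    have h4 : V j x = if V b x ≤ (j : WithTop _) then V b x else ⊤ := by
      by_contra hne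
      exact hx hne
    have hx3 : V j x = (j : WithTop _) := hx2
    rw [hx3] at h4
    have h5 : V b x = (j : WithTop _) := by
      by_cases h6 : V b x ≤ (j : WithTop _)
      · rw [if_pos h6] at h4
        exact h4.symm
      · rw [if_neg h6] at h4
        exact absurd h4 (WithTop.coe_ne_top)
    rw [hf, h5]
    rfl
  rw [hr2 f j _ _ hlimp hlimq, sub_zero]

end Q203.ID.COMPL
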